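import Pool.Agent.T6.H90.Upward.Example

set_option autoImplicit false

/-!
# Poly-line upward planar drawings of bipartite DAGs: a quadratic lower bound

For every `n ≥ 22` there is an upward planar bipartite DAG with `n` vertices (it is connected, and it
even has an upward planar straight-line drawing) all of whose upward planar poly-line grid drawings
have area at least `n² / 256`. Together with the known upper bound `O(n²)` this gives
`A_p(n) = Θ(n²)`.

The graph consists of `⌊n/4⌋` nested 4-cycles, consecutive ones of which are joined by a matching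
(and up to three pendant vertices). In a drawing let `λ_j` be the smallest `x`-coordinate of a point
of the cycle number `j`; it is an integer. No three of the `λ_j` are equal: if
`λ_i = λ_j = λ_l`, `i < j < l`, then the cycles `i` and `l` could be joined in the half plane
`x < λ_j`, outside of the cycle `j`, and together with three columns and the cycle `j` one would get
a drawing of `K_5` in which only edges with a common end meet, against the theorem of van Kampen.
So the width, and similarly the height, is at least `⌊n/4⌋ / 2 - 1`.
-/

namespace Pool.Agent.Results.MP_9caa86_co.PolyLineQuadratic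

open Pool.Agent.T6.H90.Upward

/-- The maximum `A_p(n)`, over all upward planar bipartite DAGs with `n` vertices, of the minimum
area of an upward planar poly-line grid drawing is at least `n² / 256`. -/
theorem result : ∀ n : ℕ, 22 ≤ n → (n : ℝ) ^ 2 / 256 ≤ polyArea n := by
  intro n hn
  have hfin : {A : ℝ | ∃ E : Fin n → Fin n → Prop, IsBipartiteDAG E ∧ Nonempty (Drawing E) ∧
      A = minPolyArea E}.Finite := by
    refine (Set.finite_range (fun E : Fin n → Fin n → Prop => minPolyArea E)).subset ?_
    rintro A ⟨E, -, -, rfl⟩
    exact ⟨E, rfl⟩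
  have h1 : minPolyArea (EE (n / 4) n) ≤ polyArea n :=
    le_csSup hfin.bddAbove ⟨EE (n / 4) n, bipartite _ _, ⟨drawing n⟩, rfl⟩
  have h2 := le_minPolyArea (nest n (by omega)) (by omega) ⟨drawing n⟩
  refine le_trans ?_ (h2.trans h1)
  have h3 : (n : ℝ) ≤ 4 * ((n / 4 : ℕ) : ℝ) + 3 := by
    have : n ≤ 4 * (n / 4) + 3 := by omega
    exact_mod_cast this
  have h4 : (22 : ℝ) ≤ n := by exact_mod_cast hn
  have h5 : (n : ℝ) / 16 ≤ ((n / 4 : ℕ) : ℝ) / 2 - 1 := by linarith
  have h6 : (0 : ℝ) ≤ (n : ℝ) / 16 := by positivity
  calc (n : ℝ) ^ 2 / 256 = ((n : ℝ) / 16) ^ 2 := by ring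
    _ ≤ (((n / 4 : ℕ) : ℝ) / 2 - 1) ^ 2 := pow_le_pow_left₀ h6 h5 2

end Pool.Agent.Results.MP_9caa86_co.PolyLineQuadratic
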