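import Pool.Agent.T6.H90.Upward.Example
import Pool.Agent.T6.H90.SL.K
import Pool.Agent.T6.H90.SL.A1
import Pool.Agent.T6.H90.SL.A2
import Pool.Agent.T6.H90.SL.B1
import Pool.Agent.T6.H90.SL.B2
import Pool.Agent.T6.H90.SL.B3
import Pool.Agent.T6.H90.SL.B4
import Pool.Agent.T6.H90.SL.C
import Pool.Agent.T6.H90.SL.D
import Pool.Agent.T6.H90.SL.E
import Pool.Agent.T6.H90.SL.F
import Pool.Agent.T6.H90.SL.G
import Pool.Agent.T6.H90.SL.H1
import Pool.Agent.T6.H90.SL.H
import Pool.Agent.T6.H90.SL.I1
import Pool.Agent.T6.H90.SL.I2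
import Pool.Agent.T6.H90.SL.I3
import Pool.Agent.T6.H90.SL.J

set_option autoImplicit false

/-!
# Straight-line upward planar drawings of bipartite DAGs: the area is quadratic

Every bipartite DAG with `n ≥ 1` vertices that has an upward planar drawing (by arbitrary curves with
increasing `y`-coordinate) has an upward planar straight-line grid drawing of width at most `246 n`
and height at most `492 n`. Together with the quadratic lower bound given by nested 4-cycles this
shows `A_s(n) = Θ(n²)`.

The proof. A sweep over the drawing gives a connected plane bipartite map (hypermap) containing the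
graph, which is augmented so that no face occurs twice around a white vertex. Then the graph formed by
the black vertices and the faces is 2-connected, and an `st`-numbering turns it into a bipolar plane
map, whose faces are the white vertices. A sweep over the faces builds a plane quadrangulation step by
step, and in every step barycentric coordinates (of Schnyder type, with weights) are changed such that
all edges keep their direction: at the end the direction `x₃ - x₁` increases along all edges from
black to white vertices.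

The modules were written by helper18 (H1), helper22 (I2, I3), helper58 (B1 to B4, G1, G), helper64
(E, J), helper70 (C, D, F), helper74 (A1, A2), helper90 (H, I0, K and the definitions) and
helper95 (I1).
-/

namespace Pool.Agent.Results.MP_9caa86_co.StraightLineTheta

open Pool.Agent.T6.H90.Upward Pool.Agent.T6.H90.SL

/-- An upward planar drawing of the digraph `E` by arbitrary curves with increasing `y`-coordinate:
the vertex `v` is drawn at the point `(px v, py v)` and the edge `(u, v)` is the curve
`x = X u v y`, `py u ≤ y ≤ py v`, from the point of `u` to the point of `v`. -/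
structure CurveDrawing {V : Type} (E : V → V → Prop) where
  /-- the `x`-coordinates of the vertices -/
  px : V → ℝ
  /-- the `y`-coordinates of the vertices -/
  py : V → ℝ
  /-- the curve `x = X u v y` of the edge `(u, v)` -/
  X : V → V → ℝ → ℝ
  /-- the vertices are drawn at distinct points -/
  inj : ∀ u v, px u = px v → py u = py v → u = v
  up : ∀ u v, E u v → py u < py v
  cont : ∀ u v, E u v → ContinuousOn (X u v) (Set.Icc (py u) (py v))
  start : ∀ u v, E u v → X u v (py u) = px u
  stop : ∀ u v, E u v → X u v (py v) = px v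
  /-- a vertex lies on an edge only if it is an end of the edge -/
  vertex_not_on_edge : ∀ u v w, E u v → py w ∈ Set.Icc (py u) (py v) → X u v (py w) = px w →
    w = u ∨ w = v
  /-- two different edges meet only in common ends -/
  planar : ∀ u v x y t, E u v → E x y → (u, v) ≠ (x, y) → t ∈ Set.Icc (py u) (py v) →
    t ∈ Set.Icc (py x) (py y) → X u v t = X x y t →
    ∃ w, (w = u ∨ w = v) ∧ (w = x ∨ w = y) ∧ t = py w

theorem mono {V : Type} {E : V → V → Prop} (h : Nonempty (CurveDrawing E)) :
    Nonempty (Mono E) := by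
  obtain ⟨D⟩ := h
  exact ⟨⟨D.px, D.py, D.X, D.inj, D.up, D.cont, D.start, D.stop, D.vertex_not_on_edge, D.planar⟩⟩

theorem curveDrawing {V : Type} {E : V → V → Prop} (h : Nonempty (Mono E)) :
    Nonempty (CurveDrawing E) := by
  obtain ⟨D⟩ := h
  exact ⟨⟨D.px, D.py, D.X, D.inj, D.up, D.cont, D.X_src, D.X_tgt, D.vert, D.cross⟩⟩

/-- `A_s(n)`: the maximum over all bipartite DAGs with `n` vertices that have an upward planar
drawing of the minimum area of an upward planar straight-line grid drawing. -/
noncomputable def maxArea (n : ℕ) : ℝ :=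
  sSup {A : ℝ | ∃ E : Fin n → Fin n → Prop, IsBipartiteDAG E ∧ Nonempty (CurveDrawing E) ∧
    A = minStraightArea E}

/-- Every upward planar bipartite DAG with `n` vertices has an upward planar straight-line grid
drawing of width at most `246 n` and height at most `492 n`, and `A_s(n) = Θ(n²)`. -/
theorem result :
    (∀ n : ℕ, 1 ≤ n → ∀ E : Fin n → Fin n → Prop, IsBipartiteDAG E → Nonempty (CurveDrawing E) →
      ∃ D : Drawing E, D.Straight ∧ D.FitsIn (246 * n) (492 * n)) ∧
    ∀ n : ℕ, 22 ≤ n → (n : ℝ) ^ 2 / 256 ≤ maxArea n ∧ maxArea n ≤ 121032 * (n : ℝ) ^ 2 := by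
  have key : ∀ n : ℕ, 1 ≤ n → ∀ E : Fin n → Fin n → Prop, IsBipartiteDAG E → Nonempty (CurveDrawing E) →
      ∃ D : Drawing E, D.Straight ∧ D.FitsIn (246 * n) (492 * n) := by
    intro n hn E hE hM
    have : Nonempty (Fin n) := ⟨⟨0, hn⟩⟩
    obtain ⟨D, h1, h2⟩ := exists_drawing a2 (b4 b1 b2 b3) c d e (g f g1) (h h1) i1 i2 i3 j
      (Fin n) E hE (mono hM)
    refine ⟨D, h1, ?_⟩
    simpa using h2
  refine ⟨key, ?_⟩
  intro n hn
  have hfin : {A : ℝ | ∃ E : Fin n → Fin n → Prop, IsBipartiteDAG E ∧ Nonempty (CurveDrawing E) ∧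
      A = minStraightArea E}.Finite := by
    refine (Set.finite_range (fun E : Fin n → Fin n → Prop => minStraightArea E)).subset ?_
    rintro A ⟨E, -, -, rfl⟩
    exact ⟨E, rfl⟩
  have hmem : minStraightArea (EE (n / 4) n) ∈ {A : ℝ | ∃ E : Fin n → Fin n → Prop,
      IsBipartiteDAG E ∧ Nonempty (CurveDrawing E) ∧ A = minStraightArea E} :=
    ⟨EE (n / 4) n, bipartite _ _, curveDrawing (a1 _ _ ⟨drawing n⟩), rfl⟩
  constructor
  · have h1 : minStraightArea (EE (n / 4) n) ≤ maxArea n := le_csSup hfin.bddAbove hmem
    have h2 := le_minStraightArea (nest n (by omega)) (by omega) ⟨drawing n, drawing_straight n⟩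
    refine le_trans ?_ (h2.trans h1)
    have h3 : (n : ℝ) ≤ 4 * ((n / 4 : ℕ) : ℝ) + 3 := by
      have : n ≤ 4 * (n / 4) + 3 := by omega
      exact_mod_cast this
    have h4 : (22 : ℝ) ≤ n := by exact_mod_cast hn
    have h5 : (n : ℝ) / 16 ≤ ((n / 4 : ℕ) : ℝ) / 2 - 1 := by linarith
    have h6 : (0 : ℝ) ≤ (n : ℝ) / 16 := by positivity
    calc (n : ℝ) ^ 2 / 256 = ((n : ℝ) / 16) ^ 2 := by ring
      _ ≤ (((n / 4 : ℕ) : ℝ) / 2 - 1) ^ 2 := pow_le_pow_left₀ h6 h5 2
  · refine csSup_le ⟨_, hmem⟩ ?_
    rintro A ⟨E, hE, hM, rfl⟩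
    obtain ⟨D, h1, h2⟩ := key n (by omega) E hE hM
    have h3 : minStraightArea E ≤ (246 * n : ℝ) * (492 * n) := by
      refine csInf_le ⟨0, ?_⟩ ⟨D, 246 * n, 492 * n, h1, by positivity, by positivity, h2, rfl⟩
      rintro A ⟨D', W, H, -, hW, hH, -, rfl⟩
      exact mul_nonneg hW hH
    refine h3.trans (le_of_eq ?_)
    ring

end Pool.Agent.Results.MP_9caa86_co.StraightLineTheta
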